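import Pool.Graph.R_seed8.Results.MP_e16cac_co.ContractionFails

/-!
# Many elements whose contraction destroys the Brown-Colbourn property
-/

set_option autoImplicit false
set_option linter.unusedSectionVars false

namespace Pool.Agent.Results.MP_e16cac_co.ManyElements

open Pool.Agent.Results.MP_e16cac_co.ContractionFails
open scoped Classical

variable {α β : Type} [Fintype α] [Fintype β]

/-- the generating polynomial of a family of sets -/
noncomputable def poly (P : Finset α → Prop) (v : α → ℂ) : ℂ :=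
  ∑ A ∈ Finset.univ.filter P, ∏ e ∈ A, v e

theorem spanningPoly_eq (M : Matroid α) (v : α → ℂ) :
    spanningPoly M v = poly (fun A : Finset α => M.Spanning (A : Set α)) v := rfl

theorem poly_sum (P : Finset (α ⊕ β) → Prop) (P₁ : Finset α → Prop) (P₂ : Finset β → Prop)
    (h : ∀ A, P A ↔ P₁ A.toLeft ∧ P₂ A.toRight) (v : α ⊕ β → ℂ) :
    poly P v = poly P₁ (fun a => v (Sum.inl a)) * poly P₂ (fun b => v (Sum.inr b)) := by
  unfold poly
  rw [Finset.sum_mul_sum, ← Finset.sum_product']
  refine Finset.sum_nbij' (fun A => (A.toLeft, A.toRight)) (fun q => q.1.disjSum q.2) ?_ ?_ ?_ ?_ ?_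
  · intro A hA
    simp only [Finset.mem_filter, Finset.mem_univ, true_and, Finset.mem_product] at hA ⊢
    exact (h A).1 hA
  · intro q hq
    simp only [Finset.mem_filter, Finset.mem_univ, true_and, Finset.mem_product] at hq ⊢
    rw [h]
    simpa using hq
  · intro A _
    exact Finset.toLeft_disjSum_toRight
  · intro q _
    simp
  · intro A _
    conv_lhs => rw [← Finset.toLeft_disjSum_toRight (u := A)]
    rw [Finset.prod_disjSum]

theorem sum_spanning (M : Matroid α) (N : Matroid β) (hM : M.E = Set.univ) (hN : N.E = Set.univ)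
    (X : Set (α ⊕ β)) :
    (M.sum N).Spanning X ↔ M.Spanning (Sum.inl ⁻¹' X) ∧ N.Spanning (Sum.inr ⁻¹' X) := by
  have hE : (M.sum N).E = Set.univ := by
    rw [Matroid.sum_ground, hM, hN]
    ext x; rcases x with a | b <;> simp
  rw [Matroid.spanning_iff_exists_isBase_subset (by rw [hE]; exact Set.subset_univ _),
    Matroid.spanning_iff_exists_isBase_subset (by rw [hM]; exact Set.subset_univ _),
    Matroid.spanning_iff_exists_isBase_subset (by rw [hN]; exact Set.subset_univ _)]
  constructor
  · rintro ⟨B, hB, hBX⟩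
    rw [Matroid.sum_isBase_iff] at hB
    exact ⟨⟨_, hB.1, Set.preimage_mono hBX⟩, ⟨_, hB.2, Set.preimage_mono hBX⟩⟩
  · rintro ⟨⟨B₁, h₁, h₁'⟩, B₂, h₂, h₂'⟩
    refine ⟨Sum.inl '' B₁ ∪ Sum.inr '' B₂, ?_, ?_⟩
    · rw [Matroid.sum_isBase_iff]
      constructor
      · convert h₁ using 1
        ext x; simp
      · convert h₂ using 1
        ext x; simp
    · rintro x (⟨a, ha, rfl⟩ | ⟨b, hb, rfl⟩)
      · exact h₁' ha
      · exact h₂' hb

theorem coe_toLeft (A : Finset (α ⊕ β)) : ((A.toLeft : Finset α) : Set α) = Sum.inl ⁻¹' (A : Set (α ⊕ β)) := by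
  ext x; simp

theorem coe_toRight (A : Finset (α ⊕ β)) : ((A.toRight : Finset β) : Set β) = Sum.inr ⁻¹' (A : Set (α ⊕ β)) := by
  ext x; simp

theorem spanningPoly_sum (M : Matroid α) (N : Matroid β) (hM : M.E = Set.univ)
    (hN : N.E = Set.univ) (v : α ⊕ β → ℂ) :
    spanningPoly (M.sum N) v =
      spanningPoly M (fun a => v (Sum.inl a)) * spanningPoly N (fun b => v (Sum.inr b)) := by
  rw [spanningPoly_eq, spanningPoly_eq, spanningPoly_eq]
  refine poly_sum _ _ _ (fun A => ?_) v
  rw [coe_toLeft, coe_toRight]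
  exact sum_spanning M N hM hN _

theorem ground_sum (M : Matroid α) (N : Matroid β) (hM : M.E = Set.univ) (hN : N.E = Set.univ) :
    (M.sum N).E = Set.univ := by
  rw [Matroid.sum_ground, hM, hN]
  ext x; rcases x with a | b <;> simp

theorem spanningPoly_contract_inl (M : Matroid α) (N : Matroid β) (hM : M.E = Set.univ)
    (hN : N.E = Set.univ) (e : α) (v : α ⊕ β → ℂ) :
    spanningPoly ((M.sum N).contract {Sum.inl e}) v =
      spanningPoly (M.contract {e}) (fun a => v (Sum.inl a)) *
        spanningPoly N (fun b => v (Sum.inr b)) := by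
  rw [spanningPoly_eq, spanningPoly_eq, spanningPoly_eq]
  refine poly_sum _ _ _ (fun A => ?_) v
  rw [Matroid.contract_spanning_iff (by rw [ground_sum M N hM hN]; exact Set.subset_univ _),
    Matroid.contract_spanning_iff (by rw [hM]; exact Set.subset_univ _),
    sum_spanning M N hM hN, coe_toLeft, coe_toRight]
  have h1 : Sum.inl ⁻¹' ((A : Set (α ⊕ β)) ∪ {Sum.inl e}) = Sum.inl ⁻¹' (A : Set (α ⊕ β)) ∪ {e} := by
    ext x; simp
  have h2 : Sum.inr ⁻¹' ((A : Set (α ⊕ β)) ∪ {Sum.inl e}) = Sum.inr ⁻¹' (A : Set (α ⊕ β)) := by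
    ext x; simp
  rw [h1, h2, Set.disjoint_singleton_right, Set.disjoint_singleton_right]
  simp only [Set.mem_preimage]
  tauto

theorem spanningPoly_contract_inr (M : Matroid α) (N : Matroid β) (hM : M.E = Set.univ)
    (hN : N.E = Set.univ) (e : β) (v : α ⊕ β → ℂ) :
    spanningPoly ((M.sum N).contract {Sum.inr e}) v =
      spanningPoly M (fun a => v (Sum.inl a)) *
        spanningPoly (N.contract {e}) (fun b => v (Sum.inr b)) := by
  rw [spanningPoly_eq, spanningPoly_eq, spanningPoly_eq]
  refine poly_sum _ _ _ (fun A => ?_) v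
  rw [Matroid.contract_spanning_iff (by rw [ground_sum M N hM hN]; exact Set.subset_univ _),
    Matroid.contract_spanning_iff (by rw [hN]; exact Set.subset_univ _),
    sum_spanning M N hM hN, coe_toLeft, coe_toRight]
  have h1 : Sum.inr ⁻¹' ((A : Set (α ⊕ β)) ∪ {Sum.inr e}) = Sum.inr ⁻¹' (A : Set (α ⊕ β)) ∪ {e} := by
    ext x; simp
  have h2 : Sum.inl ⁻¹' ((A : Set (α ⊕ β)) ∪ {Sum.inr e}) = Sum.inl ⁻¹' (A : Set (α ⊕ β)) := by
    ext x; simp
  rw [h1, h2, Set.disjoint_singleton_right, Set.disjoint_singleton_right]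
  simp only [Set.mem_preimage]
  tauto

/-- direct sums -/
theorem bc_sum {M : Matroid α} {N : Matroid β} (hM : M.E = Set.univ) (hN : N.E = Set.univ)
    (h₁ : BrownColbourn M) (h₂ : BrownColbourn N) : BrownColbourn (M.sum N) := by
  intro v hv
  rw [spanningPoly_sum M N hM hN]
  refine mul_ne_zero (h₁ _ fun a _ => hv _ ?_) (h₂ _ fun b _ => hv _ ?_)
  · rw [ground_sum M N hM hN]; trivial
  · rw [ground_sum M N hM hN]; trivial

theorem not_bc_inl {M : Matroid α} {N : Matroid β} (hM : M.E = Set.univ) (hN : N.E = Set.univ)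
    {e : α} (h : ¬ BrownColbourn (M.contract {e})) :
    ¬ BrownColbourn ((M.sum N).contract {Sum.inl e}) := by
  intro hbc
  apply h
  intro v hv h0
  refine hbc (Sum.elim v fun _ => -1) ?_ ?_
  · rintro (a | b) hx
    · exact hv a (by
        rw [Matroid.contract_ground, ground_sum M N hM hN] at hx
        rw [Matroid.contract_ground, hM]
        simpa using hx)
    · simp
  · rw [spanningPoly_contract_inl M N hM hN]
    exact mul_eq_zero_of_left h0 _

theorem not_bc_inr {M : Matroid α} {N : Matroid β} (hM : M.E = Set.univ) (hN : N.E = Set.univ)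
    {e : β} (h : ¬ BrownColbourn (N.contract {e})) :
    ¬ BrownColbourn ((M.sum N).contract {Sum.inr e}) := by
  intro hbc
  apply h
  intro v hv h0
  refine hbc (Sum.elim (fun _ => -1) v) ?_ ?_
  · rintro (a | b) hx
    · simp
    · exact hv b (by
        rw [Matroid.contract_ground, ground_sum M N hM hN] at hx
        rw [Matroid.contract_ground, hN]
        simpa using hx)
  · rw [spanningPoly_contract_inr M N hM hN]
    exact mul_eq_zero_of_right _ h0

theorem simple_sum {M : Matroid α} {N : Matroid β} (hM : M.E = Set.univ) (hN : N.E = Set.univ)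
    (h₁ : IsSimple M) (h₂ : IsSimple N) : IsSimple (M.sum N) := by
  have hM' : ∀ a b, M.Indep {a, b} := fun a b => h₁ a (hM ▸ trivial) b (hM ▸ trivial)
  have hN' : ∀ a b, N.Indep {a, b} := fun a b => h₂ a (hN ▸ trivial) b (hN ▸ trivial)
  have hM0 : M.Indep ∅ := M.empty_indep
  have hN0 : N.Indep ∅ := N.empty_indep
  rintro (a | a) _ (b | b) _ <;> rw [Matroid.sum_indep_iff]
  · exact ⟨(hM' a b).subset (by intro x; simp), hN0.subset (by intro x; simp)⟩
  · exact ⟨(hM' a a).subset (by intro x; simp), (hN' b b).subset (by intro x; simp)⟩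
  · exact ⟨(hM' b b).subset (by intro x; simp), (hN' a a).subset (by intro x; simp)⟩
  · exact ⟨hM0.subset (by intro x; simp), (hN' a b).subset (by intro x; simp)⟩

/-- the free matroid -/
theorem free (n : ℕ) : (Matroid.freeOn (Set.univ : Set (Fin n))).E = Set.univ ∧
    IsSimple (Matroid.freeOn (Set.univ : Set (Fin n))) ∧
    BrownColbourn (Matroid.freeOn (Set.univ : Set (Fin n))) := by
  refine ⟨rfl, fun e _ f _ => by simp, ?_⟩
  intro v hv
  have h1 : spanningPoly (Matroid.freeOn (Set.univ : Set (Fin n))) v = ∏ e, v e := by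
    unfold spanningPoly
    rw [Finset.sum_eq_single Finset.univ]
    · intro A hA hne
      exfalso
      apply hne
      simp only [Finset.mem_filter, Finset.mem_univ, true_and] at hA
      rw [Matroid.spanning_iff_exists_isBase_subset (Set.subset_univ _)] at hA
      obtain ⟨B, hB, hBA⟩ := hA
      rw [Matroid.freeOn_isBase_iff] at hB
      rw [hB] at hBA
      exact Finset.eq_univ_iff_forall.2 fun x => by
        have := hBA (Set.mem_univ x)
        simpa using this
    · intro hA
      exfalso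
      apply hA
      simp only [Finset.mem_filter, Finset.mem_univ, true_and, Finset.coe_univ]
      exact Matroid.ground_spanning (M := Matroid.freeOn (Set.univ : Set (Fin n)))
  rw [h1]
  refine Finset.prod_ne_zero_iff.2 fun e _ h0 => ?_
  have := hv e trivial
  rw [h0] at this
  simp at this

theorem example8 : R523.BC.Mx.E = Set.univ ∧ IsSimple R523.BC.Mx ∧ BrownColbourn R523.BC.Mx ∧
    ¬ BrownColbourn (R523.BC.Mx.contract {(7 : Fin 8)}) := by
  refine ⟨R523.BC.Mx_ground, ?_, Mx_bc, Mx_contract_not_bc⟩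
  intro e _ f _
  have h : (({e, f} : Finset (Fin 8)) : Set (Fin 8)) = {e, f} := by simp
  rw [← h, R523.BC.Mx_indep]
  have : ∀ e f : Fin 8, R523.BC.Ind {e, f} := by decide +kernel
  exact this e f

theorem many (k : ℕ) : ∀ n : ℕ, ∃ (γ : Type) (_ : Fintype γ) (M : Matroid γ) (F : Finset γ),
    Fintype.card γ = 8 * k + n ∧ M.E = Set.univ ∧ IsSimple M ∧ BrownColbourn M ∧ F.card = k ∧
      ∀ e ∈ F, ¬ BrownColbourn (M.contract {e}) := by
  induction k with
  | zero =>
    intro n
    obtain ⟨h1, h2, h3⟩ := free n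
    exact ⟨Fin n, inferInstance, _, ∅, by simp, h1, h2, h3, rfl, by simp⟩
  | succ k ih =>
    intro n
    obtain ⟨γ, _, M, F, hc, hE, hs, hb, hF, hFe⟩ := ih n
    obtain ⟨g1, g2, g3, g4⟩ := example8
    refine ⟨Fin 8 ⊕ γ, inferInstance, R523.BC.Mx.sum M,
      insert (Sum.inl 7) (F.map ⟨Sum.inr, Sum.inr_injective⟩), ?_, ground_sum _ _ g1 hE,
      simple_sum g1 hE g2 hs, bc_sum g1 hE g3 hb, ?_, ?_⟩
    · rw [Fintype.card_sum, hc, Fintype.card_fin]; ring
    · rw [Finset.card_insert_of_notMem (by simp), Finset.card_map, hF]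
    · intro e he
      rw [Finset.mem_insert, Finset.mem_map] at he
      rcases he with rfl | ⟨f, hf, rfl⟩
      · exact not_bc_inl g1 hE g4
      · exact not_bc_inr g1 hE (hFe f hf)

/-- For every simple Brown-Colbourn matroid `N` the direct sum with a fixed eight-element matroid is
simple, has the Brown-Colbourn property and has a contraction without it; there are simple
Brown-Colbourn matroids on `n` elements with `k` such contractions whenever `8 k ≤ n`. -/
theorem result :
    (∃ (M : Matroid (Fin 8)) (e : Fin 8), M.E = Set.univ ∧ IsSimple M ∧ BrownColbourn M ∧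
      ¬ BrownColbourn (M.contract {e}) ∧
      ∀ (β : Type) [Fintype β] (N : Matroid β), N.E = Set.univ → IsSimple N → BrownColbourn N →
        IsSimple (M.sum N) ∧ BrownColbourn (M.sum N) ∧
          ¬ BrownColbourn ((M.sum N).contract {Sum.inl e})) ∧
    ∀ k n : ℕ, 8 * k ≤ n → ∃ (γ : Type) (_ : Fintype γ) (M : Matroid γ) (F : Finset γ),
      Fintype.card γ = n ∧ M.E = Set.univ ∧ IsSimple M ∧ BrownColbourn M ∧ F.card = k ∧
        ∀ e ∈ F, ¬ BrownColbourn (M.contract {e}) := by
  obtain ⟨g1, g2, g3, g4⟩ := example8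
  refine ⟨⟨R523.BC.Mx, 7, g1, g2, g3, g4, fun β _ N hE hs hb =>
    ⟨simple_sum g1 hE g2 hs, bc_sum g1 hE g3 hb, not_bc_inl g1 hE g4⟩⟩, fun k n hkn => ?_⟩
  obtain ⟨γ, hγ, M, F, hc, h⟩ := many k (n - 8 * k)
  exact ⟨γ, hγ, M, F, by rw [hc]; omega, h⟩

end Pool.Agent.Results.MP_e16cac_co.ManyElements
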